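import Pool.Agent.Q218.HB.Stm

set_option autoImplicit false

/-!
# Project HB, job DIFZ: the difference of two resolvents
-/

namespace Pool.Agent.Q164.HB

open Pool.Agent.Q218.HB

theorem difz (hI : S_INV) (hW : S_WARD) : S_DIFZ := by
  intro Λ _ _ h V z z' hs hz hz' x y
  obtain ⟨a1, a2, a3⟩ := hI Λ h V z hs hz.ne'
  obtain ⟨b1, b2, b3⟩ := hI Λ h V z' hs hz'.ne'
  have w1 := hW Λ h V z hs hz y
  have w2 := hW Λ h V z' hs hz' x
  have e1 : G h V z' - G h V z = (z' - z) • (G h V z' * G h V z) := by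
    have h1 : G h V z' * ((Hm h V - z • (1 : Matrix Λ Λ ℂ)) - (Hm h V - z' • (1 : Matrix Λ Λ ℂ))) *
        G h V z = G h V z' - G h V z := by
      rw [Matrix.mul_sub, Matrix.sub_mul, b2, Matrix.one_mul, Matrix.mul_assoc, a1, Matrix.mul_one]
    rw [← h1]
    have h2 : (Hm h V - z • (1 : Matrix Λ Λ ℂ)) - (Hm h V - z' • (1 : Matrix Λ Λ ℂ)) =
        (z' - z) • (1 : Matrix Λ Λ ℂ) := by
      rw [sub_smul]
      abel
    rw [h2, Matrix.mul_smul, Matrix.mul_one, Matrix.smul_mul]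
  have e2 : G h V z' x y - G h V z x y = (z' - z) * ∑ w, G h V z' x w * G h V z w y := by
    have h1 := congrFun (congrFun e1 x) y
    rw [Matrix.sub_apply, Matrix.smul_apply, Matrix.mul_apply, smul_eq_mul] at h1
    exact h1
  rw [e2, norm_mul, mul_pow, ← w1, ← w2]
  refine mul_le_mul_of_nonneg_left ?_ (sq_nonneg _)
  have e3 : ‖∑ w, G h V z' x w * G h V z w y‖ ≤ ∑ w, ‖G h V z' x w‖ * ‖G h V z y w‖ := by
    refine (norm_sum_le _ _).trans (le_of_eq (Finset.sum_congr rfl fun w _ => ?_))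
    rw [norm_mul, a3 w y]
  calc ‖∑ w, G h V z' x w * G h V z w y‖ ^ 2 ≤ (∑ w, ‖G h V z' x w‖ * ‖G h V z y w‖) ^ 2 :=
        pow_le_pow_left₀ (norm_nonneg _) e3 2
    _ ≤ (∑ w, ‖G h V z' x w‖ ^ 2) * ∑ w, ‖G h V z y w‖ ^ 2 :=
        Finset.sum_mul_sq_le_sq_mul_sq _ _ _

end Pool.Agent.Q164.HB
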